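import Pool.Agent.H74.TQ.Stmts

/-!
# Two queries: module TOSAT: Cook-Levin for predicates on encoded types
-/

set_option autoImplicit false

namespace Pool.TQ

open TMLib Polynomial N68a2faeb

/-- TOSAT: predicates in NP on encoded types reduce to satisfiability -/
theorem tosat_thm (hCODE : S_CODE) : S_TOSAT := by
  classical
  intro α _ _ R hR
  obtain ⟨V, q, hV, hs, hc⟩ := hR
  -- the predicate on bit strings
  let L : DecisionProblem := fun z => decide (R (TMLib.Fix.fix (parse z) : α))
  have hfix : PTime (fun z : List Bool => (TMLib.Fix.fix (parse z) : α)) := by fun_prop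
  obtain ⟨B, hB⟩ := hfix.exists_size_le
  have hsz : ∀ x : List Bool, sz x ≤ 1 + x.length * 4 := fun x =>
    sz_list_le x _ 3 le_rfl fun b _ => sz_bool_le b
  have hL : L ∈ NP := by
    refine mem_NP_cert (β := D) (V := fun z w => V (TMLib.Fix.fix (parse z)) w) ?_
      (q.comp (B.comp (1 + X * C 4))) ?_ ?_
    · exact hV.comp (f := fun p : List Bool × D => ((TMLib.Fix.fix (parse p.1) : α), p.2))
        (by fun_prop)
    · intro z w hw
      have := hs _ _ hw
      simpa [L] using this
    · intro z hz
      have hz' : R (TMLib.Fix.fix (parse z) : α) := by simpa [L] using hz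
      obtain ⟨w, hw, hw'⟩ := hc _ hz'
      refine ⟨w, ?_, hw'⟩
      have h1 : sz w = w.size := rfl
      have h2 := (hB z).trans (eval_mono B (hsz z))
      rw [h1]
      refine hw.trans ?_
      simp only [eval_comp, eval_add, eval_one, eval_mul, eval_X, eval_C]
      exact eval_mono q h2
  obtain ⟨f, hf, hf'⟩ := cook_levin hL
  refine ⟨fun x => f (enc x).code, ?_, fun x => ?_⟩
  · exact hf.comp (PTime.comp (g := fun x : D => x.code) hCODE PTime.enc')
  · rw [← hf']
    simp [L, parse_code, TMLib.Fix.fix_enc]

end Pool.TQ
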